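import Pool.Agent.Y271.RO.Stm

/-!
# Project RO: mollification
-/

set_option autoImplicit false

namespace Pool.Agent.Y31.RO

open MeasureTheory Set Metric Filter Topology
open scoped ContDiff Convolution
open Pool.Agent.Y271.RO (db)

lemma norm_db_le (F : ℂ → ℂ) (z : ℂ) : ‖db F z‖ ≤ ‖fderiv ℝ F z‖ := by
  unfold db
  rw [norm_div, Complex.norm_ofNat]
  have h1 : ‖fderiv ℝ F z 1‖ ≤ ‖fderiv ℝ F z‖ := by
    have := (fderiv ℝ F z).le_opNorm 1
    rwa [norm_one, mul_one] at this
  have h2 : ‖fderiv ℝ F z Complex.I‖ ≤ ‖fderiv ℝ F z‖ := by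
    have := (fderiv ℝ F z).le_opNorm Complex.I
    rwa [Complex.norm_I, mul_one] at this
  have h3 : ‖fderiv ℝ F z 1 + Complex.I * fderiv ℝ F z Complex.I‖ ≤
      ‖fderiv ℝ F z 1‖ + ‖fderiv ℝ F z Complex.I‖ := by
    refine (norm_add_le _ _).trans ?_
    rw [norm_mul, Complex.norm_I, one_mul]
  rw [div_le_iff₀ (by norm_num)]
  linarith

/-- continuity of `Θ` -/
lemma theta_cont {W Θ : ℂ → ℝ} {η : ℝ} (hW : Continuous W) (hη : 0 < η)
    (hl : ∀ z z', ‖z - z'‖ ≤ 1 →
      |Θ z - Θ z'| ≤ 1 / η * (‖z - z'‖ * ∫ t in (0:ℝ)..1, W (z + t * (z' - z)))) :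
    Continuous Θ := by
  rw [continuous_iff_continuousAt]
  intro z
  obtain ⟨M, hM⟩ := (isCompact_closedBall z 1).bddAbove_image hW.continuousOn
  have hb : ∀ z', ‖z - z'‖ ≤ 1 → |Θ z - Θ z'| ≤ 1 / η * (‖z - z'‖ * M) := by
    intro z' hz'
    refine (hl z z' hz').trans ?_
    apply mul_le_mul_of_nonneg_left _ (by positivity)
    apply mul_le_mul_of_nonneg_left _ (norm_nonneg _)
    have hc : Continuous fun t : ℝ => W (z + t * (z' - z)) := by fun_prop
    have h1 : ∫ t in (0:ℝ)..1, W (z + t * (z' - z)) ≤ ∫ t in (0:ℝ)..1, M := by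
      apply intervalIntegral.integral_mono_on zero_le_one (hc.intervalIntegrable _ _)
        intervalIntegrable_const
      intro t ht
      apply hM
      refine ⟨_, ?_, rfl⟩
      rw [mem_closedBall, dist_eq_norm, add_sub_cancel_left, norm_mul, Complex.norm_real,
        Real.norm_of_nonneg ht.1, norm_sub_rev z' z]
      calc t * ‖z - z'‖ ≤ 1 * 1 := mul_le_mul ht.2 hz' (norm_nonneg _) zero_le_one
        _ = 1 := one_mul 1
    rwa [intervalIntegral.integral_const, sub_zero, one_smul] at h1
  rw [ContinuousAt, tendsto_iff_norm_sub_tendsto_zero]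
  have h0 : Tendsto (fun z' => 1 / η * (‖z - z'‖ * M)) (𝓝 z) (𝓝 0) := by
    have h1 : Tendsto (fun z' => 1 / η * (‖z - z'‖ * M)) (𝓝 z) (𝓝 (1 / η * (‖z - z‖ * M))) := by
      apply Continuous.tendsto
      fun_prop
    rwa [sub_self, norm_zero, zero_mul, mul_zero] at h1
  refine squeeze_zero_norm' ?_ h0
  filter_upwards [closedBall_mem_nhds z zero_lt_one] with z' hz'
  rw [norm_norm, Real.norm_eq_abs, abs_sub_comm]
  apply hb
  rw [← dist_eq_norm, dist_comm]
  exact hz'

theorem main : Pool.Agent.Y271.RO.S_SMO := by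
  intro W Θ a τ r η δ hW hW0 hτ hτr hη hδ h1 h0 h01 hl
  have hΘc : Continuous Θ := theta_cont hW hη hl
  have hr : 0 < r := hτ.trans hτr
  -- uniform continuity
  obtain ⟨d0, hd0, hd0'⟩ : ∃ d0 > 0, ∀ x ∈ closedBall a (2 * r + 2), ∀ y ∈ closedBall a (2 * r + 2),
      dist x y < d0 → dist (W x) (W y) < δ :=
    Metric.uniformContinuousOn_iff.1 ((isCompact_closedBall a (2 * r + 2)).uniformContinuousOn_of_continuous
      hW.continuousOn) δ hδ
  obtain ⟨d, hd, hd1, hd2, hd3, hd4⟩ : ∃ d : ℝ, 0 < d ∧ 2 * d < d0 ∧ d < 1 / 4 ∧ d < τ / 4 ∧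
      d < r / 4 := by
    refine ⟨min (min (d0 / 4) (1 / 8)) (min (τ / 8) (r / 8)), by positivity, ?_, ?_, ?_, ?_⟩
    · have := (min_le_left (min (d0 / 4) (1 / 8)) (min (τ / 8) (r / 8))).trans (min_le_left _ _)
      linarith
    · have := (min_le_left (min (d0 / 4) (1 / 8)) (min (τ / 8) (r / 8))).trans (min_le_right _ _)
      linarith
    · have := (min_le_right (min (d0 / 4) (1 / 8)) (min (τ / 8) (r / 8))).trans (min_le_left _ _)
      linarith
    · have := (min_le_right (min (d0 / 4) (1 / 8)) (min (τ / 8) (r / 8))).trans (min_le_right _ _)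
      linarith
  let φ : ContDiffBump (0 : ℂ) := ⟨d / 2, d, by positivity, by linarith⟩
  have hφr : φ.rOut = d := rfl
  set ρ : ℂ → ℝ := φ.normed volume with hρ
  set θ : ℂ → ℝ := ρ ⋆[ContinuousLinearMap.lsmul ℝ ℝ, volume] Θ with hθ
  have hθs : ContDiff ℝ ∞ θ :=
    φ.hasCompactSupport_normed.contDiff_convolution_left _ φ.contDiff_normed
      hΘc.locallyIntegrable
  have hconst : ∀ (z : ℂ) (c : ℝ), (∀ x ∈ ball z d, Θ x = c) → θ z = c := by
    intro z c hz
    have h2 : Θ z = c := hz z (mem_ball_self hd)
    have h3 := φ.normed_convolution_eq_right (μ := volume) (g := Θ) (x₀ := z) (by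
      intro x hx
      rw [h2]
      exact hz x hx)
    rw [hθ, h3, h2]
  have hθ0 : ∀ z, r + d ≤ ‖z - a‖ → θ z = 0 := by
    intro z hz
    apply hconst
    intro x hx
    apply h0
    rw [mem_ball, dist_eq_norm] at hx
    have h2 : ‖z - a‖ ≤ ‖x - a‖ + ‖x - z‖ := by
      have := norm_sub_le (x - a) (x - z)
      simpa using this
    linarith
  -- the estimate
  have hest : ∀ z z', ‖z - a‖ ≤ 2 * r + 1 → ‖z - z'‖ ≤ d →
      ‖θ z' - θ z‖ ≤ (1 / η * (W z + δ)) * ‖z' - z‖ := by
    intro z z' hza hzz
    have hint : ∀ w : ℂ, Integrable fun y => ρ y • Θ (w - y) := by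
      intro w
      apply Continuous.integrable_of_hasCompactSupport
      · exact φ.continuous_normed.smul (hΘc.comp (continuous_const.sub continuous_id))
      · exact φ.hasCompactSupport_normed.smul_right
    have e1 : θ z' - θ z = ∫ y, ρ y • (Θ (z' - y) - Θ (z - y)) := by
      have e2 : ∀ w, θ w = ∫ y, ρ y • Θ (w - y) := fun w => rfl
      rw [e2, e2, ← integral_sub (hint z') (hint z)]
      apply integral_congr_ae
      filter_upwards with y
      rw [smul_sub]
    rw [e1]
    set C := (1 / η * (W z + δ)) * ‖z' - z‖ with hC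
    have hC0 : 0 ≤ C := by
      have := hW0 z
      positivity
    have h2 : ‖∫ y, ρ y • (Θ (z' - y) - Θ (z - y))‖ ≤ ∫ y, ρ y * C := by
      apply norm_integral_le_of_norm_le
      · exact φ.integrable_normed.mul_const C
      · filter_upwards with y
        rw [norm_smul, Real.norm_of_nonneg (φ.nonneg_normed y)]
        by_cases hy : ρ y = 0
        · have hy2 : φ.normed volume y = 0 := hy
          rw [hy, hy2, zero_mul, zero_mul]
        · apply mul_le_mul_of_nonneg_left _ (φ.nonneg_normed y)
          have hy' : ‖y‖ < d := by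
            have h3 : y ∈ Function.support (φ.normed volume) := hy
            rw [φ.support_normed_eq, mem_ball_zero_iff] at h3
            exact h3
          have e3 : ‖(z - y) - (z' - y)‖ = ‖z' - z‖ := by
            rw [sub_sub_sub_cancel_right, norm_sub_rev]
          have hzz' : ‖z' - z‖ ≤ d := by rwa [norm_sub_rev]
          have h3 := hl (z - y) (z' - y) (by rw [e3]; linarith)
          rw [e3] at h3
          rw [Real.norm_eq_abs, abs_sub_comm]
          refine h3.trans ?_
          rw [hC, mul_assoc, mul_comm (W z + δ)]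
          apply mul_le_mul_of_nonneg_left _ (by positivity)
          apply mul_le_mul_of_nonneg_left _ (norm_nonneg _)
          have hc : Continuous fun t : ℝ => W (z - y + t * (z' - y - (z - y))) := by fun_prop
          have h4 : ∫ t in (0:ℝ)..1, W (z - y + t * (z' - y - (z - y))) ≤
              ∫ t in (0:ℝ)..1, (W z + δ) := by
            apply intervalIntegral.integral_mono_on zero_le_one (hc.intervalIntegrable _ _)
              intervalIntegrable_const
            intro t ht
            have e4 : ‖(z - y + t * (z' - y - (z - y))) - z‖ ≤ 2 * d := by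
              have e5 : (z - y + t * (z' - y - (z - y))) - z = t * (z' - z) - y := by ring
              rw [e5]
              refine (norm_sub_le _ _).trans ?_
              rw [norm_mul, Complex.norm_real, Real.norm_of_nonneg ht.1]
              have : t * ‖z' - z‖ ≤ 1 * d := mul_le_mul ht.2 hzz' (norm_nonneg _) zero_le_one
              linarith
            have h5 := hd0' (z - y + t * (z' - y - (z - y))) (by
              rw [mem_closedBall, dist_eq_norm]
              have h6 : ‖(z - y + t * (z' - y - (z - y))) - a‖ ≤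
                  ‖(z - y + t * (z' - y - (z - y))) - z‖ + ‖z - a‖ := by
                have := norm_add_le ((z - y + t * (z' - y - (z - y))) - z) (z - a)
                rwa [sub_add_sub_cancel] at this
              linarith) z (by
              rw [mem_closedBall, dist_eq_norm]
              linarith) (by
              rw [dist_eq_norm]
              linarith)
            rw [Real.dist_eq] at h5
            have := (abs_lt.1 h5).2
            linarith
          rwa [intervalIntegral.integral_const, sub_zero, one_smul] at h4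
    rw [integral_mul_const, φ.integral_normed, one_mul] at h2
    exact h2
  refine ⟨fun z => (θ z : ℂ), ?_, ?_, ?_, ?_⟩
  · exact Complex.ofRealCLM.contDiff.comp hθs
  · intro z hz
    have h2 : θ z = 1 := by
      apply hconst
      intro x hx
      apply h1
      rw [mem_ball] at hx hz ⊢
      have := dist_triangle x z a
      linarith
    show (θ z : ℂ) = 1
    rw [h2, Complex.ofReal_one]
  · intro z hz
    show (θ z : ℂ) = 0
    rw [hθ0 z (by linarith), Complex.ofReal_zero]
  · intro z
    refine (norm_db_le _ z).trans ?_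
    have hC0 : 0 ≤ 1 / η * (W z + δ) := by
      have := hW0 z
      positivity
    apply norm_fderiv_le_of_lip' ℝ hC0
    filter_upwards [closedBall_mem_nhds z hd] with z' hz'
    rw [mem_closedBall, dist_eq_norm] at hz'
    rw [← Complex.ofReal_sub, Complex.norm_real]
    by_cases hza : ‖z - a‖ ≤ 2 * r + 1
    · exact hest z z' hza (by rwa [norm_sub_rev])
    · push Not at hza
      have h2 : ‖z - a‖ ≤ ‖z' - a‖ + ‖z' - z‖ := by
        have := norm_sub_le (z' - a) (z' - z)
        simpa using this
      rw [hθ0 z (by linarith), hθ0 z' (by linarith), sub_zero, norm_zero]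
      positivity

end Pool.Agent.Y31.RO
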